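import Pool.Agent.Helper31.MHS.Goals
import Pool.Agent.Helper96.MH.TRU

/-!
# Packet MHS-VAL: the values of the registers
-/

namespace Pool.Agent.Helper49.MHS

open Pool.Agent.Helper65.LinSpace Pool.Agent.Helper78.Mpc Pool.Agent.Helper28.Ram Finset
open Pool.Agent.Helper20.MH (Prm Sys)
open Pool.Agent.Helper31.MHS
open Pool.Agent.Helper96.MH

theorem nrec_keep {g : ℕ → ℕ → ℕ} {r : ℕ} (n : ℕ) (h : ∀ i < n, g i r = r) : nrec r g n = r := by
  induction n with
  | zero => rfl
  | succ n ih =>
    rw [nrec_succ, ih fun i hi => h i (by omega)]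
    exact h n (by omega)

theorem ifz_eq_zero_of_ne {a b x y : ℕ} (h : a ≠ b) : ifz (eq01 a b) x y = x := by
  have h2 : eq01 a b = 0 := if_neg h
  rw [h2]
  rfl

theorem rt_lt (P : WP) (p : ℕ) : P.rt p < (2 ^ P.m.κ) ^ (P.m.K * P.m.D) :=
  tab_lt fun k _ => (Nat.div_le_self _ _).trans_lt (dig_lt (by positivity) _ _)

theorem rt_mod (P : WP) (c τ p : ℕ) : P.rt p % 2 ^ (P.sys c τ).σ = P.rt p := by
  apply Nat.mod_eq_of_lt
  have h1 := rt_lt P p
  rw [← pow_mul] at h1
  refine h1.trans_le ?_
  change 2 ^ (P.m.κ * (P.m.K * P.m.D)) ≤ 2 ^ (P.m.κ * (P.m.K * P.m.D) + 1)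
  exact Nat.pow_le_pow_right (by norm_num) (Nat.le_succ _)

theorem mod_tp {K i p : ℕ} (hi : i < K + 1) : (i + (K + 1) * p) % (K + 1) = i := by
  rw [Nat.add_mul_mod_self_left, Nat.mod_eq_of_lt hi]

theorem tpN_lt (m : Prm) (i : ℕ) : m.tpN i < m.K + 1 := dig_lt (Nat.succ_pos _) _ _

theorem val (hW : WOK_stmt) : VAL_stmt := by
  have hst : ∀ (P : WP) (F : ℕ → ℕ → ℕ → ℕ), 0 < P.m.κ → 0 < P.m.c → FOk P F → ∀ c τ x,
      F c τ x % 2 ^ (P.sg + P.cb) = ((P.sys c τ).conf P.N).1 := by
    intro P F hκ hc hF c τ x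
    have hok := (hW P c τ hκ hc).1
    rw [hF c τ x, Nat.add_mul_mod_self_left]
    exact Nat.mod_eq_of_lt (conf_fst_lt hok P.N)
  refine ⟨hst, ?_, ?_⟩
  · intro P F hκ hc hF c τ x
    rw [hF c τ x]
    unfold Prm.wq
    have h1 : 2 ^ (P.sg + P.cb) = 2 ^ (P.m.S + 1) * 2 ^ (P.m.κ * (P.m.K * P.m.D) + P.cb) := by
      rw [← pow_add]
      congr 1
      unfold WP.sg
      ring
    rw [h1, mul_assoc, Nat.add_mul_mod_self_left]
  · intro P F hκ hc hF c τ i hi p hp
    have hok := (hW P c τ hκ hc).1
    unfold WP.oz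
    congr 1
    set Z := i + (P.m.K + 1) * p with hZ
    set s := P.sys c τ with hs
    have hnbs : ∀ x j, s.nb x j = P.m.nb x j := fun _ _ => rfl
    have hv : F c τ (P.rt p) / 2 ^ s.sg = cV s P.N 0 (P.rt p) := by
      rw [hF c τ (P.rt p), rt_mod]
      exact Pool.Agent.Helper96.MH.add_mul_div (conf_fst_lt hok P.N)
    have hK : 0 < P.m.K := by omega
    have hZm : Z % (P.m.K + 1) = i := mod_tp (by omega)
    by_cases hex : ∃ i' < P.m.K, P.m.tpN i' = i
    · obtain ⟨i', hi', htp⟩ := hex
      set m := P.m with hm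
      set a : ℕ → ℕ := fun k => dig (2 ^ m.κ) p k with ha
      have halt : ∀ k, a k < 2 ^ m.κ := fun k => dig_lt (by positivity) _ _
      set δ : ℕ → ℕ := fun k => a k + m.c - a k / m.c * m.c with hδ
      have hδ1 : ∀ k, δ k < 3 * m.c := by
        intro k
        have h3 : a k < a k / m.c * m.c + m.c := Nat.lt_div_mul_add hc
        change a k + m.c - a k / m.c * m.c < 3 * m.c
        omega
      set T := tab (3 * m.c) m.D δ with hT
      have hTlt : T < (3 * m.c) ^ m.D := tab_lt fun k _ => hδ1 k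
      have hj1 : (i' + m.K * T) % m.K = i' := by
        rw [Nat.add_mul_mod_self_left, Nat.mod_eq_of_lt hi']
      have hj2 : (i' + m.K * T) / m.K = T := by
        rw [Nat.add_mul_div_left _ _ hK, Nat.div_eq_of_lt hi', zero_add]
      have hjJ : i' + m.K * T < s.J := by
        change i' + m.K * T < m.K * (3 * m.c) ^ m.D
        calc i' + m.K * T < m.K + m.K * T := by omega
          _ = m.K * (T + 1) := by ring
          _ ≤ _ := Nat.mul_le_mul_left _ hTlt
      have hlt : ∀ k < m.D, i' * m.D + k < m.K * m.D := by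
        intro k hk
        calc i' * m.D + k < i' * m.D + m.D := by omega
          _ = (i' + 1) * m.D := by ring
          _ ≤ m.K * m.D := Nat.mul_le_mul_right _ hi'
      have hnb : s.nb (P.rt p) (i' + m.K * T) = Z := by
        rw [hnbs]
        unfold Prm.nb
        rw [hj1, hj2, htp, hZ]
        congr 2
        conv_rhs => rw [← tab_dig p m.D hp]
        refine tab_congr fun k hk => ?_
        have e1 : dig (2 ^ m.κ) (P.rt p) (i' * m.D + k) = a k / m.c := by
          unfold WP.rt
          rw [dig_tab (fun k _ => (Nat.div_le_self _ _).trans_lt (dig_lt (by positivity) _ _))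
            (hlt k hk)]
          show dig (2 ^ m.κ) p ((i' * m.D + k) % m.D) / m.c = _
          rw [mul_comm i' m.D, Nat.mul_add_mod, Nat.mod_eq_of_lt hk]
        have e2 : dig (3 * m.c) T k = δ k := dig_tab (fun k _ => hδ1 k) hk
        rw [e1, e2]
        have h5 : a k / m.c * m.c ≤ a k := Nat.div_mul_le_self _ _
        have e3 : a k / m.c * m.c + δ k - m.c = a k := by
          change a k / m.c * m.c + (a k + m.c - a k / m.c * m.c) - m.c = a k
          omega
        rw [e3]
        exact Nat.mod_eq_of_lt (halt k)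
      exact old_eq hok hv s.J le_rfl ⟨_, hjJ, hnb⟩
    · push Not at hex
      have h1 : s.old (P.rt p) (F c τ (P.rt p)) Z = 0 := by
        unfold Sys.old
        apply nrec_keep
        intro j _
        apply ifz_eq_zero_of_ne
        intro h
        have h2 := congrArg (· % (P.m.K + 1)) h
        simp only [hZm] at h2
        rw [hnbs] at h2
        unfold Prm.nb at h2
        rw [mod_tp (tpN_lt P.m _)] at h2
        exact hex _ (Nat.mod_lt _ hK) h2
      have h2 : ∀ t, (s.conf t).2 Z = 0 := by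
        intro t
        induction t with
        | zero => rfl
        | succ t ih =>
          show s.wr (s.conf t).1 (s.rd (s.conf t).2 (s.conf t).1) Z ((s.conf t).2 Z) = 0
          rw [ih]
          unfold Sys.wr
          apply nrec_keep
          intro i' hi'
          apply ifz_eq_zero_of_ne
          intro h
          have h2 := congrArg (· % (P.m.K + 1)) h
          simp only [hZm] at h2
          change (P.m.tpN i' + (P.m.K + 1) * _) % (P.m.K + 1) = i at h2
          rw [mod_tp (tpN_lt P.m _)] at h2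
          exact hex _ hi' h2
      rw [h1, h2]

end Pool.Agent.Helper49.MHS
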